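import Mathlib

set_option autoImplicit false

namespace Pool.Agent.Results.MP_4db40a_lc.SltNotOrd

/-- `L` is a language over the alphabet `U`. -/
def Over (U : Finset ℕ) (L : Language ℕ) : Prop := ∀ w ∈ L, ∀ a ∈ w, a ∈ U

/-- `L` is ordered with respect to `U`: it is accepted by a complete deterministic finite automaton
whose state set has a total order such that every letter of `U` acts monotonically. -/
def Ordered (U : Finset ℕ) (L : Language ℕ) : Prop :=
  Over U L ∧ ∃ (Z : Type) (_ : Fintype Z) (_ : LinearOrder Z) (z₀ : Z) (F : Set Z)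
    (δ : Z → ℕ → Z), (∀ a ∈ U, ∀ z z' : Z, z ≤ z' → δ z a ≤ δ z' a) ∧
      ∀ w : List ℕ, (∀ a ∈ w, a ∈ U) → (w ∈ L ↔ List.foldl δ z₀ w ∈ F)

/-- `L` is strictly locally `k`-testable with respect to `U`. -/
def SLT (k : ℕ) (U : Finset ℕ) (L : Language ℕ) : Prop :=
  Over U L ∧ ∃ B I E : Set (List ℕ), ∀ w : List ℕ, (∀ a ∈ w, a ∈ U) → k ≤ w.length →
    (w ∈ L ↔ w.take k ∈ B ∧ w.drop (w.length - k) ∈ E ∧
      ∀ x f y : List ℕ, w = x ++ f ++ y → f.length = k → x ≠ [] → y ≠ [] → f ∈ I)

/-- A contextual grammar with selection: an alphabet `V`, a finite set `A` of axioms, and finitely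
many pairs `(S i, C i)` of a selection language over `U i ⊆ V` and a finite set of contexts. -/
structure Grammar where
  V : Finset ℕ
  m : ℕ
  U : Fin m → Finset ℕ
  U_sub : ∀ i, U i ⊆ V
  S : Fin m → Language ℕ
  C : Fin m → Finset (List ℕ × List ℕ)
  C_sub : ∀ i, ∀ p ∈ C i, (∀ a ∈ p.1, a ∈ V) ∧ (∀ a ∈ p.2, a ∈ V)
  A : Finset (List ℕ)
  A_sub : ∀ w ∈ A, ∀ a ∈ w, a ∈ V

/-- One external derivation step. -/
def Step (G : Grammar) (x y : List ℕ) : Prop :=
  ∃ i, x ∈ G.S i ∧ ∃ p ∈ G.C i, y = p.1 ++ x ++ p.2

/-- The generated language. -/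
def Grammar.language (G : Grammar) : Language ℕ :=
  {y | ∃ x ∈ G.A, Relation.ReflTransGen (Step G) x y}

/-- The languages generated by grammars whose selection languages are in the family `Fam`. -/
def EC (Fam : Finset ℕ → Language ℕ → Prop) : Set (Language ℕ) :=
  {L | ∃ G : Grammar, (∀ i, Fam (G.U i) (G.S i)) ∧ G.language = L}

/-! ### The witness -/

/-- Allowed factors of length two: the letters are `p_i = i` and `z_i = i + 3` for `i < 3`. -/
def ok (a b : ℕ) : Prop := (a < 3 ∧ 3 ≤ b ∧ b < 6 ∧ b ≠ a + 3) ∨ (3 ≤ a ∧ a < 6 ∧ b < 3)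

/-- Words over the six letters all of whose factors of length two are allowed. -/
def Alive (w : List ℕ) : Prop := (∀ a ∈ w, a < 6) ∧ w.IsChain ok

/-- The witness language. -/
def L₀ : Language ℕ := {w | (∀ a ∈ w, a < 6) ∨ ∃ v, Alive v ∧ w = [6] ++ v ++ [6]}

/-- The words over the six letters. -/
def S₀ : Language ℕ := {w | ∀ a ∈ w, a < 6}

/-- The words with only allowed factors. -/
def S₁ : Language ℕ := {w | Alive w}

/-- The grammar for the witness. -/
def G₀ : Grammar where
  V := Finset.range 7
  m := 2
  U := fun _ => Finset.range 6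
  U_sub := by
    intro i a ha
    rw [Finset.mem_range] at ha ⊢
    omega
  S := ![S₀, S₁]
  C := ![(Finset.range 6).image (fun x => ([], [x])), {([6], [6])}]
  C_sub := by
    intro i p hp
    fin_cases i
    · simp only [Fin.zero_eta, Matrix.cons_val_zero, Finset.mem_image, Finset.mem_range] at hp
      obtain ⟨x, hx, rfl⟩ := hp
      simp
      omega
    · have hp' : p = (([6], [6]) : List ℕ × List ℕ) := Finset.mem_singleton.1 hp
      subst hp'
      simp
  A := {[]}
  A_sub := by
    intro w hw
    rw [Finset.mem_singleton] at hw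
    simp [hw]

theorem slt_S₀ : SLT 2 (Finset.range 6) S₀ := by
  refine ⟨fun w hw a ha => Finset.mem_range.2 (hw a ha), Set.univ, Set.univ, Set.univ, ?_⟩
  intro w hw _
  simp only [Set.mem_univ, true_and, implies_true, iff_true]
  intro a ha
  exact Finset.mem_range.1 (hw a ha)

theorem slt_S₁ : SLT 2 (Finset.range 6) S₁ := by
  refine ⟨fun w hw a ha => Finset.mem_range.2 (hw.1 a ha), {f | ∃ a b, f = [a, b] ∧ ok a b},
    {f | ∃ a b, f = [a, b] ∧ ok a b}, {f | ∃ a b, f = [a, b] ∧ ok a b}, ?_⟩
  intro w hw hlen
  have hfac : ∀ x f y : List ℕ, w = x ++ f ++ y → f.length = 2 → w.IsChain ok →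
      f ∈ {f | ∃ a b, f = [a, b] ∧ ok a b} := by
    intro x f y h1 h2 h3
    obtain ⟨a, b, rfl⟩ := List.length_eq_two.1 h2
    refine ⟨a, b, rfl, ?_⟩
    rw [h1] at h3
    exact List.isChain_pair.1 h3.left_of_append.right_of_append
  constructor
  · rintro ⟨-, hc⟩
    refine ⟨?_, ?_, ?_⟩
    · exact hfac [] (w.take 2) (w.drop 2) (by simp) (by simp; omega) hc
    · exact hfac (w.take (w.length - 2)) (w.drop (w.length - 2)) [] (by simp) (by simp; omega) hc
    · intro x f y h1 h2 _ _
      exact hfac x f y h1 h2 hc
  · rintro ⟨h1, h2, h3⟩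
    refine ⟨fun a ha => Finset.mem_range.1 (hw a ha), ?_⟩
    rw [List.isChain_iff_forall_rel_of_append_cons_cons]
    intro a b x y hxy
    have hgo : [a, b] ∈ {f | ∃ a b, f = [a, b] ∧ ok a b} → ok a b := by
      rintro ⟨a', b', h, hok⟩
      simp only [List.cons.injEq, and_true] at h
      rw [h.1, h.2]
      exact hok
    apply hgo
    by_cases hx : x = []
    · subst hx
      have : w.take 2 = [a, b] := by rw [hxy]; rfl
      rw [← this]
      exact h1
    · by_cases hy : y = []
      · subst hy
        have : w.drop (w.length - 2) = [a, b] := by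
          rw [hxy]
          have : (x ++ [a, b]).length - 2 = x.length := by simp
          rw [this, List.drop_left]
        rw [← this]
        exact h2
      · exact h3 x [a, b] y (by rw [hxy]; simp) rfl hx hy

theorem lang_G₀ : G₀.language = L₀ := by
  ext w
  constructor
  · rintro ⟨x, hx, h⟩
    have hx' : x = [] := Finset.mem_singleton.1 hx
    subst hx'
    induction h with
    | refl => exact Or.inl (by simp)
    | tail _ h2 _ =>
      obtain ⟨i, hS, p, hp, rfl⟩ := h2
      have hi : ∀ i : Fin 2, i = 0 ∨ i = 1 := by decide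
      rcases hi i with rfl | rfl
      · have hp' : p ∈ (Finset.range 6).image (fun x => (([], [x]) : List ℕ × List ℕ)) := hp
        rw [Finset.mem_image] at hp'
        obtain ⟨x, hx, rfl⟩ := hp'
        left
        intro a ha
        simp only [List.nil_append, List.mem_append, List.mem_singleton] at ha
        rcases ha with ha | rfl
        · exact hS a ha
        · exact Finset.mem_range.1 hx
      · have hp' : p = (([6], [6]) : List ℕ × List ℕ) := Finset.mem_singleton.1 hp
        subst hp'
        exact Or.inr ⟨_, hS, rfl⟩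
  · have key : ∀ v : List ℕ, (∀ a ∈ v, a < 6) → Relation.ReflTransGen (Step G₀) [] v := by
      intro v
      induction v using List.reverseRecOn with
      | nil => intro _; exact Relation.ReflTransGen.refl
      | append_singleton v x ih =>
        intro hv
        refine (ih fun a ha => hv a (by simp [ha])).tail ?_
        refine ⟨(0 : Fin 2), fun a ha => hv a (by simp [ha]), ([], [x]), ?_, by simp⟩
        change ([], [x]) ∈ (Finset.range 6).image (fun x => (([], [x]) : List ℕ × List ℕ))
        rw [Finset.mem_image]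
        exact ⟨x, Finset.mem_range.2 (hv x (by simp)), rfl⟩
    rintro (hw | ⟨v, hv, rfl⟩)
    · exact ⟨[], Finset.mem_singleton.2 rfl, key w hw⟩
    · exact ⟨[], Finset.mem_singleton.2 rfl, (key v hv.1).tail
        ⟨(1 : Fin 2), hv, ([6], [6]), Finset.mem_singleton.2 rfl, rfl⟩⟩

/-! ### Blocks -/

/-- The word of a list of blocks. -/
def wd (bs : List (Fin 3 × Fin 3)) : List ℕ := bs.flatMap fun b => [b.1.val, b.2.val + 3]

/-- Good lists of blocks. -/
def Good (bs : List (Fin 3 × Fin 3)) : Prop := ∀ b ∈ bs, b.1 ≠ b.2

theorem wd_append (b c : List (Fin 3 × Fin 3)) : wd (b ++ c) = wd b ++ wd c := by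
  simp [wd]

theorem Good.append {b c : List (Fin 3 × Fin 3)} (hb : Good b) (hc : Good c) : Good (b ++ c) := by
  intro x hx
  rcases List.mem_append.1 hx with h | h
  · exact hb x h
  · exact hc x h

theorem alive_wd {bs : List (Fin 3 × Fin 3)} (h : Good bs) : Alive (wd bs) := by
  induction bs with
  | nil => exact ⟨by simp [wd], by simp [wd]⟩
  | cons b bs ih =>
    have ih' := ih fun x hx => h x (by simp [hx])
    have hb := h b (by simp)
    have e : wd (b :: bs) = b.1.val :: (b.2.val + 3) :: wd bs := rfl
    rw [e]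
    refine ⟨?_, ?_⟩
    · intro a ha
      simp only [List.mem_cons] at ha
      rcases ha with rfl | rfl | ha
      · omega
      · omega
      · exact ih'.1 a ha
    · rw [List.isChain_cons_cons]
      refine ⟨?_, ?_⟩
      · left
        refine ⟨b.1.isLt, by omega, by omega, ?_⟩
        intro h
        apply hb
        apply Fin.ext
        omega
      · cases bs with
        | nil => simp [wd]
        | cons c bs =>
          have e2 : wd (c :: bs) = c.1.val :: (c.2.val + 3) :: wd bs := rfl
          rw [e2] at ih' ⊢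
          rw [List.isChain_cons_cons]
          refine ⟨?_, ih'.2⟩
          right
          omega

/-! ### Monotone maps -/

theorem mono_id {Z : Type} [Fintype Z] [LinearOrder Z] (T : Finset Z) (f : Z → Z)
    (hmono : ∀ z z', z ≤ z' → f z ≤ f z') (hT : ∀ s ∈ T, f s ∈ T) (hcard : T.card ≤ (T.image f).card)
    (s : Z) (hs : s ∈ T) : f s = s := by
  classical
  let g : {x // x ∈ T} → {x // x ∈ T} := fun x => ⟨f x.1, hT x.1 x.2⟩
  have hsub : T.image f ⊆ T := by
    intro y hy
    obtain ⟨x, hx, rfl⟩ := Finset.mem_image.1 hy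
    exact hT x hx
  have heq : T.image f = T := Finset.eq_of_subset_of_card_le hsub hcard
  have hsurj : Function.Surjective g := by
    rintro ⟨y, hy⟩
    rw [← heq] at hy
    obtain ⟨x, hx, hxy⟩ := Finset.mem_image.1 hy
    exact ⟨⟨x, hx⟩, Subtype.ext hxy⟩
  have hinj : Function.Injective g := Finite.injective_iff_surjective.2 hsurj
  have hmono' : Monotone g := fun x y hxy => hmono x.1 y.1 hxy
  have hstrict : StrictMono g := hmono'.strictMono_of_injective hinj
  have h1 : (⟨s, hs⟩ : {x // x ∈ T}) ≤ g ⟨s, hs⟩ := hstrict.le_apply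
  have h2 : g ⟨s, hs⟩ ≤ (⟨s, hs⟩ : {x // x ∈ T}) := hstrict.apply_le
  exact le_antisymm h2 h1

theorem middle {Z : Type} [LinearOrder Z] (q : Fin 3 → Z) :
    ∃ a m b : Fin 3, a ≠ m ∧ b ≠ m ∧ q a ≤ q m ∧ q m ≤ q b := by
  rcases le_total (q 0) (q 1) with h1 | h1 <;> rcases le_total (q 1) (q 2) with h2 | h2 <;>
    rcases le_total (q 0) (q 2) with h3 | h3
  · exact ⟨0, 1, 2, by decide, by decide, h1, h2⟩
  · exact ⟨0, 1, 2, by decide, by decide, h1, h2⟩
  · exact ⟨0, 2, 1, by decide, by decide, h3, h2⟩
  · exact ⟨2, 0, 1, by decide, by decide, h3, h1⟩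
  · exact ⟨1, 0, 2, by decide, by decide, h1, h3⟩
  · exact ⟨1, 2, 0, by decide, by decide, h2, h3⟩
  · exact ⟨2, 1, 0, by decide, by decide, h2, h1⟩
  · exact ⟨2, 1, 0, by decide, by decide, h2, h1⟩

section

variable {Z : Type} [Fintype Z] [LinearOrder Z] (δ : Z → ℕ → Z)

/-- The number of states reached by a word. -/
def rank (w : List ℕ) : ℕ := (Finset.univ.image fun z => List.foldl δ z w).card

theorem rank_factor (x y z : List ℕ) : rank δ (x ++ y ++ z) ≤ rank δ y := by
  unfold rank
  have h1 : (Finset.univ.image fun q => List.foldl δ q (x ++ y ++ z)) ⊆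
      ((Finset.univ.image fun q => List.foldl δ q y).image fun q => List.foldl δ q z) := by
    intro r hr
    obtain ⟨q, -, rfl⟩ := Finset.mem_image.1 hr
    rw [List.foldl_append, List.foldl_append]
    exact Finset.mem_image_of_mem _ (Finset.mem_image_of_mem (fun q => List.foldl δ q y)
      (Finset.mem_univ _))
  exact (Finset.card_le_card h1).trans Finset.card_image_le

theorem exists_min : ∃ bs, Good bs ∧ ∀ cs, Good cs → rank δ (wd bs) ≤ rank δ (wd cs) := by
  classical
  have hex : ∃ n, ∃ bs, Good bs ∧ rank δ (wd bs) = n :=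
    ⟨_, [], fun _ h => by simp at h, rfl⟩
  obtain ⟨bs, hbs, hr⟩ := Nat.find_spec hex
  exact ⟨bs, hbs, fun cs hcs => by rw [hr]; exact Nat.find_min' hex ⟨cs, hcs, rfl⟩⟩

omit [Fintype Z] in
theorem foldl_mono {U : Finset ℕ} (hδ : ∀ a ∈ U, ∀ z z' : Z, z ≤ z' → δ z a ≤ δ z' a)
    (w : List ℕ) (hw : ∀ a ∈ w, a ∈ U) : ∀ z z' : Z, z ≤ z' →
      List.foldl δ z w ≤ List.foldl δ z' w := by
  induction w with
  | nil => intro z z' h; exact h
  | cons a w ih =>
    intro z z' h
    exact ih (fun b hb => hw b (by simp [hb])) _ _ (hδ a (hw a (by simp)) z z' h)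

/-- The key property of words of minimal rank. -/
theorem fixed {U : Finset ℕ} (hδ : ∀ a ∈ U, ∀ z z' : Z, z ≤ z' → δ z a ≤ δ z' a)
    (hU : ∀ a, a < 6 → a ∈ U) (E : List (Fin 3 × Fin 3)) (hE : Good E)
    (hmin : ∀ cs, Good cs → rank δ (wd E) ≤ rank δ (wd cs)) (bs : List (Fin 3 × Fin 3))
    (hbs : Good bs) (q : Z) :
    List.foldl δ (List.foldl δ q (wd E)) (wd (bs ++ E)) = List.foldl δ q (wd E) := by
  refine mono_id (Finset.univ.image fun z => List.foldl δ z (wd E))
    (fun z => List.foldl δ z (wd (bs ++ E))) ?_ ?_ ?_ _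
    (Finset.mem_image_of_mem (fun z => List.foldl δ z (wd E)) (Finset.mem_univ q))
  · exact foldl_mono δ hδ _ fun a ha => hU a ((alive_wd (hbs.append hE)).1 a ha)
  · intro s _
    rw [wd_append, List.foldl_append]
    exact Finset.mem_image_of_mem (fun z => List.foldl δ z (wd E)) (Finset.mem_univ _)
  · have h1 : ((Finset.univ.image fun z => List.foldl δ z (wd E)).image
        fun z => List.foldl δ z (wd (bs ++ E))) =
        Finset.univ.image fun z => List.foldl δ z (wd (E ++ (bs ++ E))) := by
      rw [Finset.image_image]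
      congr 1
      funext z
      rw [wd_append E (bs ++ E), List.foldl_append]
      rfl
    rw [h1]
    exact hmin _ (hE.append (hbs.append hE))

/-- A bad block can be inserted. -/
theorem bad_block {U : Finset ℕ} (hδ : ∀ a ∈ U, ∀ z z' : Z, z ≤ z' → δ z a ≤ δ z' a)
    (hU : ∀ a, a < 6 → a ∈ U) (E : List (Fin 3 × Fin 3)) (hE : Good E)
    (hmin : ∀ cs, Good cs → rank δ (wd E) ≤ rank δ (wd cs)) (q : Z) :
    ∃ m : Fin 3, List.foldl δ (List.foldl δ q (wd E)) (wd [(m, m)] ++ wd E) =
      List.foldl δ q (wd E) := by
  set s := List.foldl δ q (wd E) with hs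
  obtain ⟨a, m, b, ham, hbm, h1, h2⟩ := middle fun i : Fin 3 => δ s i.val
  refine ⟨m, ?_⟩
  have key : ∀ i : Fin 3, i ≠ m →
      List.foldl δ (δ s i.val) ((m.val + 3) :: wd E) = s := by
    intro i him
    have := fixed δ hδ hU E hE hmin [(i, m)] (by
      intro x hx
      rw [List.mem_singleton] at hx
      rw [hx]
      exact him) q
    rw [wd_append, ← hs] at this
    exact this
  have hmono := foldl_mono δ hδ ((m.val + 3) :: wd E) (by
    intro x hx
    rcases List.mem_cons.1 hx with rfl | hx
    · exact hU _ (by omega)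
    · exact hU _ ((alive_wd hE).1 x hx))
  have e1 := hmono _ _ h1
  have e2 := hmono _ _ h2
  rw [key a ham] at e1
  rw [key b hbm] at e2
  exact le_antisymm e2 e1

end

/-! ### The last step of a derivation -/

theorem last_step (G : Grammar) (y : List ℕ) (hy : y ∈ G.language) :
    y ∈ G.A ∨ ∃ x ∈ G.language, ∃ i, x ∈ G.S i ∧ ∃ p ∈ G.C i, y = p.1 ++ x ++ p.2 ∧
      (p.1 ≠ [] ∨ p.2 ≠ []) := by
  obtain ⟨x, hx, h⟩ := hy
  induction h with
  | refl => exact Or.inl hx
  | @tail b c h1 h2 ih =>
    obtain ⟨i, hi, p, hp, rfl⟩ := h2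
    by_cases hne : p.1 ≠ [] ∨ p.2 ≠ []
    · exact Or.inr ⟨b, ⟨x, hx, h1⟩, i, hi, p, hp, rfl, hne⟩
    · push Not at hne
      rw [hne.1, hne.2, List.nil_append, List.append_nil]
      exact ih

/-- All the good blocks. -/
def base : List (Fin 3 × Fin 3) := [(0, 1), (1, 2), (2, 0)]

theorem good_base : Good base := by
  intro b hb
  simp only [base, List.mem_cons, List.not_mem_nil, or_false] at hb
  rcases hb with rfl | rfl | rfl <;> decide

theorem mem_base (a : ℕ) (ha : a < 6) : a ∈ wd base := by
  have : wd base = [0, 4, 1, 5, 2, 3] := rfl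
  rw [this]
  interval_cases a <;> simp

/-- There is a language generated by an external contextual grammar with strictly locally
2-testable selection languages which is not generated by any external contextual grammar with
ordered selection languages. -/
theorem result : (EC (SLT 2) \ EC Ordered).Nonempty := by
  classical
  refine ⟨L₀, ⟨G₀, ?_, lang_G₀⟩, ?_⟩
  · intro i
    fin_cases i
    · exact slt_S₀
    · exact slt_S₁
  rintro ⟨G, hord, hL⟩
  -- the automata
  have hex : ∀ i, ∃ E, Good E ∧ ((∀ a, a < 6 → a ∈ G.U i) →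
      ∀ X Y : List (Fin 3 × Fin 3), Good X → Good Y → ∀ x y : List ℕ,
        (∀ a ∈ x, a ∈ G.U i) → (∀ a ∈ y, a ∈ G.U i) →
        x ++ wd (X ++ E ++ Y) ++ y ∈ G.S i →
        ∃ m : Fin 3, x ++ wd (X ++ E ++ Y) ++ wd [(m, m)] ++ wd (X ++ E ++ Y) ++ y ∈ G.S i) := by
    intro i
    obtain ⟨-, Z, _, _, z₀, F, δ, hδ, hacc⟩ := hord i
    obtain ⟨E, hE, hmin⟩ := exists_min δ
    refine ⟨E, hE, ?_⟩
    intro hU X Y hX hY x y hx hy hmem
    set W := X ++ E ++ Y with hW
    have hWg : Good W := (hX.append hE).append hY
    have hWmin : ∀ cs, Good cs → rank δ (wd W) ≤ rank δ (wd cs) := by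
      intro cs hcs
      refine le_trans ?_ (hmin cs hcs)
      rw [hW, wd_append, wd_append]
      exact rank_factor δ _ _ _
    have hUw : ∀ cs : List (Fin 3 × Fin 3), ∀ a ∈ wd cs, a ∈ G.U i := by
      intro cs a ha
      apply hU
      simp only [wd, List.mem_flatMap, List.mem_cons, List.not_mem_nil, or_false] at ha
      obtain ⟨b, -, rfl | rfl⟩ := ha <;> omega
    obtain ⟨m, hm⟩ := bad_block δ hδ hU W hWg hWmin (List.foldl δ z₀ x)
    refine ⟨m, ?_⟩
    rw [hacc] at hmem ⊢
    · rw [List.foldl_append, List.foldl_append] at hmem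
      rw [List.foldl_append, List.foldl_append, List.foldl_append, List.foldl_append]
      rw [List.foldl_append] at hm
      rw [hm]
      exact hmem
    · intro a ha
      simp only [List.mem_append] at ha
      rcases ha with (((ha | ha) | ha) | ha) | ha
      · exact hx a ha
      · exact hUw _ a ha
      · exact hUw _ a ha
      · exact hUw _ a ha
      · exact hy a ha
    · intro a ha
      simp only [List.mem_append] at ha
      rcases ha with (ha | ha) | ha
      · exact hx a ha
      · exact hUw _ a ha
      · exact hy a ha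
  choose E hE hEi using hex
  -- the bound
  obtain ⟨B, hB1, hB2⟩ : ∃ B : ℕ, (∀ w ∈ G.A, w.length ≤ B) ∧
      ∀ i, ∀ p ∈ G.C i, p.1.length + p.2.length ≤ B := by
    refine ⟨G.A.sup List.length + ∑ i, (G.C i).sup fun p => p.1.length + p.2.length, ?_, ?_⟩
    · intro w hw
      exact (Finset.le_sup hw).trans (Nat.le_add_right _ _)
    · intro i p hp
      refine le_trans ?_ (Nat.le_add_left _ _)
      refine le_trans (Finset.le_sup (f := fun p : List ℕ × List ℕ => p.1.length + p.2.length) hp) ?_
      exact Finset.single_le_sum (f := fun i => (G.C i).sup fun p => p.1.length + p.2.length)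
        (fun _ _ => Nat.zero_le _) (Finset.mem_univ i)
  -- the central word
  set M : List (Fin 3 × Fin 3) := base ++ (List.finRange G.m).flatMap E with hM
  have hMg : Good M := by
    refine good_base.append ?_
    intro b hb
    obtain ⟨i, -, hi⟩ := List.mem_flatMap.1 hb
    exact hE i b hi
  have hMi : ∀ i, ∃ X Y, Good X ∧ Good Y ∧ M = X ++ E i ++ Y := by
    intro i
    obtain ⟨s, t, hst⟩ := List.append_of_mem (List.mem_finRange i)
    refine ⟨base ++ s.flatMap E, t.flatMap E, ?_, ?_, ?_⟩
    · refine good_base.append ?_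
      intro b hb
      obtain ⟨j, -, hj⟩ := List.mem_flatMap.1 hb
      exact hE j b hj
    · intro b hb
      obtain ⟨j, -, hj⟩ := List.mem_flatMap.1 hb
      exact hE j b hj
    · rw [hM, hst]
      simp
  have hMmem : ∀ a, a < 6 → a ∈ wd M := by
    intro a ha
    rw [hM, wd_append]
    exact List.mem_append_left _ (mem_base a ha)
  have hMlen : 1 ≤ (wd M).length := by
    rw [hM, wd_append, List.length_append]
    have : (wd base).length = 6 := rfl
    omega
  set R : List (Fin 3 × Fin 3) := (List.replicate B M).flatten with hR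
  have hRg : Good R := by
    intro b hb
    obtain ⟨l, hl, hbl⟩ := List.mem_flatten.1 hb
    rw [List.eq_of_mem_replicate hl] at hbl
    exact hMg b hbl
  have hRlen : B ≤ (wd R).length := by
    rw [hR]
    clear hR hRg hB1 hB2 R
    induction B with
    | zero => exact Nat.zero_le _
    | succ B ih =>
      rw [List.replicate_succ, List.flatten_cons, wd_append, List.length_append]
      omega
  set w := wd R ++ wd M ++ wd R with hw
  have hwd : w = wd (R ++ M ++ R) := by rw [hw, wd_append (R ++ M) R, wd_append R M]
  have hwa : Alive w := by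
    rw [hwd]
    exact alive_wd ((hRg.append hMg).append hRg)
  have hy0 : [6] ++ w ++ [6] ∈ G.language := by
    rw [hL]
    exact Or.inr ⟨w, hwa, rfl⟩
  have hwlen : w.length = (wd R).length + (wd M).length + (wd R).length := by
    rw [hw, List.length_append, List.length_append]
  rcases last_step G _ hy0 with hax | ⟨x, hxL, i, hxS, p, hp, hxy, hne⟩
  · have h1 := hB1 _ hax
    rw [List.length_append, List.length_append] at h1
    simp only [List.length_cons, List.length_nil] at h1
    omega
  · have hpB := hB2 i p hp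
    have hlen := congrArg List.length hxy
    simp only [List.length_append, List.length_cons, List.length_nil] at hlen
    have hxL' : x ∈ L₀ := by rw [← hL]; exact hxL
    rcases hxL' with hx6 | ⟨v, hv, rfl⟩
    · have hxne : x ≠ [] := by
        rintro rfl
        simp only [List.length_nil] at hlen
        omega
      -- the left context
      obtain ⟨u', hu'⟩ : ∃ u', p.1 = 6 :: u' := by
        cases h1 : p.1 with
        | nil =>
          exfalso
          rw [h1] at hxy
          obtain ⟨c, x', rfl⟩ := List.exists_cons_of_ne_nil hxne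
          simp only [List.nil_append, List.cons_append, List.append_assoc,
            List.cons.injEq] at hxy
          have := hx6 c (by simp)
          omega
        | cons c u' =>
          rw [h1] at hxy
          simp only [List.nil_append, List.cons_append, List.append_assoc,
            List.cons.injEq] at hxy
          exact ⟨u', by rw [hxy.1]⟩
      -- the right context
      obtain ⟨v', hv'⟩ : ∃ v', p.2 = v' ++ [6] := by
        rcases List.eq_nil_or_concat' p.2 with h1 | ⟨v', c, h1⟩
        · exfalso
          rw [h1, List.append_nil] at hxy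
          rcases List.eq_nil_or_concat' x with h2 | ⟨x', c, h2⟩
          · exact hxne h2
          · rw [h2, ← List.append_assoc p.1 x' [c]] at hxy
            have h3 := (List.append_inj' hxy rfl).2
            have := hx6 c (by rw [h2]; simp)
            simp only [List.cons.injEq, and_true] at h3
            omega
        · rw [h1, ← List.append_assoc (p.1 ++ x) v' [c]] at hxy
          have h3 := (List.append_inj' hxy rfl).2
          simp only [List.cons.injEq, and_true] at h3
          exact ⟨v', by rw [h1, h3]⟩
      rw [hu', hv'] at hxy hpB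
      simp only [List.length_cons, List.length_append, List.length_nil] at hpB
      have hxy2 : w = u' ++ x ++ v' := by
        have h1 : [6] ++ w ++ [6] = [6] ++ (u' ++ x ++ v') ++ [6] := by
          rw [hxy]; simp
        have h2 := (List.append_inj' h1 rfl).1
        exact List.append_cancel_left h2
      -- cut inside the borders
      obtain ⟨x1, hx1⟩ : ∃ x1, wd R = u' ++ x1 := by
        have h1 : u' <+: w := ⟨x ++ v', by rw [hxy2]; simp⟩
        have h2 : wd R <+: w := ⟨wd M ++ wd R, by rw [hw]; simp⟩
        obtain ⟨t, ht⟩ := List.prefix_of_prefix_length_le h1 h2 (by omega)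
        exact ⟨t, ht.symm⟩
      obtain ⟨x2, hx2⟩ : ∃ x2, wd R = x2 ++ v' := by
        have h1 : v' <:+ w := ⟨u' ++ x, by rw [hxy2]⟩
        have h2 : wd R <:+ w := ⟨wd R ++ wd M, by rw [hw]⟩
        obtain ⟨t, ht⟩ := List.suffix_of_suffix_length_le h1 h2 (by omega)
        exact ⟨t, ht.symm⟩
      have hx : x = x1 ++ wd M ++ x2 := by
        have h1 : u' ++ (x ++ v') = u' ++ (x1 ++ wd M ++ x2 ++ v') := by
          rw [← List.append_assoc, ← hxy2, hw]
          conv_lhs => rw [hx2]
          rw [← hx2, hx1]
          simp only [List.append_assoc]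
          rw [← hx1, hx2]
        have h2 := List.append_cancel_left h1
        exact List.append_cancel_right h2
      -- all letters are in `U i`
      have hover := (hord i).1 x hxS
      have hU : ∀ a, a < 6 → a ∈ G.U i := by
        intro a ha
        apply hover
        rw [hx]
        simp [hMmem a ha]
      obtain ⟨X, Y, hX, hY, hXY⟩ := hMi i
      have hx1U : ∀ a ∈ x1, a ∈ G.U i := fun a ha => hover a (by rw [hx]; simp [ha])
      have hx2U : ∀ a ∈ x2, a ∈ G.U i := fun a ha => hover a (by rw [hx]; simp [ha])
      rw [hx, hXY] at hxS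
      obtain ⟨m, hm⟩ := hEi i hU X Y hX hY x1 x2 hx1U hx2U hxS
      rw [← hXY] at hm
      -- the new word
      have hx16 : ∀ a ∈ x1, a < 6 := fun a ha => hx6 a (by rw [hx]; simp [ha])
      have hx26 : ∀ a ∈ x2, a < 6 := fun a ha => hx6 a (by rw [hx]; simp [ha])
      have hnew : x1 ++ wd M ++ wd [(m, m)] ++ wd M ++ x2 ∈ G.language := by
        rw [hL]
        left
        intro a ha
        simp only [List.mem_append] at ha
        rcases ha with (((ha | ha) | ha) | ha) | ha
        · exact hx16 a ha
        · exact (alive_wd hMg).1 a ha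
        · simp only [wd, List.flatMap_cons, List.flatMap_nil, List.append_nil, List.mem_cons,
            List.not_mem_nil, or_false] at ha
          rcases ha with rfl | rfl <;> omega
        · exact (alive_wd hMg).1 a ha
        · exact hx26 a ha
      obtain ⟨ax, hax, hder⟩ := hnew
      have hfin : p.1 ++ (x1 ++ wd M ++ wd [(m, m)] ++ wd M ++ x2) ++ p.2 ∈ G.language :=
        ⟨ax, hax, hder.tail ⟨i, hm, p, hp, rfl⟩⟩
      rw [hL] at hfin
      rcases hfin with hfin | ⟨v, hv, hfin⟩
      · have := hfin 6 (by rw [hu']; simp)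
        omega
      · rw [hu', hv'] at hfin
        have h1 : [6] ++ (u' ++ (x1 ++ wd M ++ wd [(m, m)] ++ wd M ++ x2) ++ v') ++ [6] =
            [6] ++ v ++ [6] := by
          rw [← hfin]; simp
        have h2 := List.append_cancel_left ((List.append_inj' h1 rfl).1)
        have h3 : u' ++ (x1 ++ wd M) ++ [m.val, m.val + 3] ++ (wd M ++ x2 ++ v') = v := by
          rw [← h2]
          have : wd [(m, m)] = [m.val, m.val + 3] := rfl
          rw [this]
          simp
        have hv2 := hv.2
        rw [← h3] at hv2
        have h4 := List.isChain_pair.1 hv2.left_of_append.right_of_append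
        rcases h4 with h4 | h4
        · omega
        · omega
    · -- `x` already has two letters `6`
      have hw6 : ∀ a ∈ w, a ≠ 6 := fun a ha h => by
        have := hwa.1 a ha
        omega
      have hcount := congrArg (List.count 6) hxy
      have hcw : List.count 6 w = 0 := List.count_eq_zero.2 fun h => hw6 6 h rfl
      simp only [List.count_append, hcw] at hcount
      have hc6 : List.count 6 [6] = 1 := rfl
      rw [hc6] at hcount
      have h1 : p.1 = [] := by
        cases h1 : p.1 with
        | nil => rfl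
        | cons c u' =>
          exfalso
          rw [h1] at hxy hcount
          simp only [List.nil_append, List.cons_append, List.append_assoc,
            List.cons.injEq] at hxy
          rw [← hxy.1, List.count_cons_self] at hcount
          omega
      have h2 : p.2 = [] := by
        rcases List.eq_nil_or_concat' p.2 with h2 | ⟨v', c, h2⟩
        · exact h2
        · exfalso
          rw [h2, ← List.append_assoc (p.1 ++ ([6] ++ v ++ [6])) v' [c]] at hxy
          have h3 := (List.append_inj' hxy rfl).2
          simp only [List.cons.injEq, and_true] at h3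
          rw [h2, ← h3, List.count_append, hc6] at hcount
          omega
      rcases hne with hne | hne
      · exact hne h1
      · exact hne h2

end Pool.Agent.Results.MP_4db40a_lc.SltNotOrd
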